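import Mathlib
import Pool.Agent.K4H73.LU.Params

/-!
# The four exponentials conjecture for terms of a companion Lucas sequence

`Pool.Agent.K4H73.LU.lucV P Q` (in `Pool.Agent.K4H73.LU.Seq`) is the companion Lucas sequence `V_0 = 2`,
`V_1 = P`, `V_{n+2} = P V_{n+1} - Q V_n`. For `(P, Q) = (1, -1)` it is the sequence of the Lucas numbers,
for `(2, -1)` the Pell-Lucas numbers, for `(a + b, a b)` it is `a ^ n + b ^ n`.

Let `P ≥ 1` and `Q ≠ 0` be integers with `4 Q < P ^ 2` and let `K` be a natural number. Consider the `2 × 2`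
arrays of integers `a_ij ≥ 2` with largest entry `M` such that every entry `a_ij` is a term of the sequence
or satisfies `log a_ij ≤ (log log M) ^ K`. If `M` is larger than a bound which depends only on `P, Q, K`,
the four exponentials conjecture holds for the array: if `(log a_ij)` has `ℚ`-linearly independent rows and
`ℚ`-linearly independent columns, its determinant is not `0`.

In particular the conjecture holds for all but finitely many arrays of terms `≥ 2` of the sequence, and for
the rows `(log u, log v)`, `(log V_m, log V_n)` for any given integers `u, v ≥ 2` and all but finitely many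
pairs of terms `V_m, V_n ≥ 2`. There is no condition on the relative sizes of the indices.

The proof uses a lower bound for linear forms in two logarithms of real elements of a quadratic ring
(`Pool.Agent.K4H73.LU.lfl_gen` in `Pool.Agent.K4H73.LU.Gen`), proved here.
-/

set_option autoImplicit false

namespace Pool.Agent.Results.MP_bbc1fa_nt.LucasSequences

open Pool.Agent.K4H73.NP Pool.Agent.K4H73.LU

/-- a dependence with positive integral coefficients contradicts the linear independence -/
lemma not_dep {u v : Fin 2 → ℝ} (h : LinearIndependent ℚ ![u, v]) {p q : ℕ} (hp : 0 < p)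
    (h0 : p * u 0 = q * v 0) (h1 : p * u 1 = q * v 1) : False := by
  rw [LinearIndependent.pair_iff] at h
  have h2 := h (p : ℚ) (-(q : ℚ)) (by
    funext i
    fin_cases i
    · simp only [Rat.smul_def, Pi.add_apply, Pi.smul_apply, Fin.zero_eta, Pi.zero_apply]
      push_cast
      linarith
    · simp only [Rat.smul_def, Pi.add_apply, Pi.smul_apply, Fin.mk_one, Pi.zero_apply]
      push_cast
      linarith)
  have h3 : (p : ℚ) = 0 := h2.1
  have : p = 0 := by exact_mod_cast h3
  omega

/-- **The four exponentials conjecture for terms of a companion Lucas sequence.** Let `P ≥ 1` and `Q ≠ 0` be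
integers with `4 Q < P ^ 2`, let `V_n` be the companion Lucas sequence `V_0 = 2`, `V_1 = P`,
`V_{n+2} = P V_{n+1} - Q V_n`, and let `K` be a natural number. There is `M₀` such that the following holds
for all `2 × 2` arrays of integers `a_ij ≥ 2` with largest entry `M ≥ M₀` in which every entry satisfies
`log a_ij ≤ (log log M) ^ K` or is a term of the sequence: if `(log a_ij)` has `ℚ`-linearly independent
rows and `ℚ`-linearly independent columns, its determinant is not `0`. -/
theorem result (P Q : ℤ) (hP : 1 ≤ P) (hQ : Q ≠ 0) (hΔ : 4 * Q < P ^ 2) (K : ℕ) :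
    ∃ M₀ : ℕ, ∀ (M : ℕ) (a : Matrix (Fin 2) (Fin 2) ℕ),
    M₀ ≤ M → (∀ i j, 2 ≤ a i j ∧ a i j ≤ M) → (∃ i j, a i j = M) →
    (∀ i j, Real.log (a i j) ≤ Real.log (Real.log M) ^ K ∨ ∃ n : ℕ, (a i j : ℤ) = lucV P Q n) →
    LinearIndependent ℚ (fun i : Fin 2 => fun j : Fin 2 => Real.log (a i j)) →
    LinearIndependent ℚ (fun j : Fin 2 => fun i : Fin 2 => Real.log (a i j)) →
    (Matrix.of fun i j : Fin 2 => Real.log (a i j)).det ≠ 0 := by
  obtain ⟨α, β, R, -⟩ := exists_root hP hQ hΔ
  obtain ⟨T, hT⟩ := arrays R K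
  refine ⟨⌈Real.exp (Real.exp (T + 1))⌉₊, ?_⟩
  intro M a hM hI hmax hnear hrow hcol hdet
  have hM1 : Real.exp (Real.exp (T + 1)) ≤ M := (Nat.le_ceil _).trans (by exact_mod_cast hM)
  have hM0 : (0 : ℝ) < M := (Real.exp_pos _).trans_le hM1
  have hℓ1 : Real.exp (T + 1) ≤ Real.log M := by
    rw [Real.le_log_iff_exp_le hM0]; exact hM1
  have hℓ0 : 0 < Real.log M := (Real.exp_pos _).trans_le hℓ1
  have hx1 : (T + 1 : ℝ) ≤ Real.log (Real.log M) := by
    rw [Real.le_log_iff_exp_le hℓ0]; exact hℓ1
  obtain ⟨t, htd⟩ : ∃ t, t = ⌈Real.log (Real.log M)⌉₊ := ⟨_, rfl⟩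
  have hT0 : (0 : ℝ) ≤ T := Nat.cast_nonneg _
  have hx0 : 0 ≤ Real.log (Real.log M) := by linarith
  have hxt : Real.log (Real.log M) ≤ t := by rw [htd]; exact Nat.le_ceil _
  have htx : (t : ℝ) < Real.log (Real.log M) + 1 := by rw [htd]; exact Nat.ceil_lt_add_one hx0
  have hTt : T ≤ t := by
    have : (T : ℝ) ≤ t := by linarith
    exact_mod_cast this
  have ht1 : 1 ≤ t := by
    have : (1 : ℝ) ≤ t := by linarith
    exact_mod_cast this
  have hℓe : Real.log M ≤ Real.exp t := by
    rw [← Real.log_le_iff_le_exp hℓ0]; exact hxt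
  have hℓ2 : (2 : ℝ) ^ t / 2 < Real.log M := by
    obtain ⟨s, hs⟩ : ∃ s, t = s + 1 := ⟨t - 1, by omega⟩
    have h1 : (s : ℝ) < Real.log (Real.log M) := by
      rw [hs] at htx; push_cast at htx; linarith
    have h2 : Real.exp s < Real.log M := (Real.lt_log_iff_exp_lt hℓ0).1 h1
    have h3 : (2 : ℝ) ^ s ≤ Real.exp s := by
      have h5 : Real.exp s = Real.exp 1 ^ s := by rw [← Real.exp_nat_mul, mul_one]
      rw [h5]
      refine pow_le_pow_left₀ (by norm_num) ?_ s
      have := Real.add_one_le_exp (1 : ℝ)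
      linarith
    rw [hs, pow_succ]
    linarith
  have hlog : ∀ i j, Real.log (a i j) ≤ Real.log M := fun i j => by
    refine Real.log_le_log ?_ ?_
    · have := (hI i j).1
      exact_mod_cast (by omega : 0 < a i j)
    · exact_mod_cast (hI i j).2
  have hmx : Real.log (a 0 0) = Real.log M ∨ Real.log (a 0 1) = Real.log M ∨
      Real.log (a 1 0) = Real.log M ∨ Real.log (a 1 1) = Real.log M := by
    obtain ⟨i, j, hij⟩ := hmax
    fin_cases i <;> fin_cases j
    · left; exact congrArg (fun n : ℕ => Real.log n) hij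
    · right; left; exact congrArg (fun n : ℕ => Real.log n) hij
    · right; right; left; exact congrArg (fun n : ℕ => Real.log n) hij
    · right; right; right; exact congrArg (fun n : ℕ => Real.log n) hij
  rw [Matrix.det_fin_two] at hdet
  simp only [Matrix.of_apply] at hdet
  have hD := hT t hTt (Real.log (Real.log M)) (Real.log M) hx0 hxt hℓe hℓ2 (a 0 0) (a 0 1) (a 1 0)
    (a 1 1) (hI 0 0).1 (hI 0 1).1 (hI 1 0).1 (hI 1 1).1 (hlog 0 0) (hlog 0 1) (hlog 1 0) (hlog 1 1)
    hmx (hnear 0 0) (hnear 0 1) (hnear 1 0) (hnear 1 1) (by linarith)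
  rcases hD with ⟨p, q, hp, -, h1, h2⟩ | ⟨p, q, hp, -, h1, h2⟩
  · -- columns
    have h3 : (fun j : Fin 2 => fun i : Fin 2 => Real.log (a i j)) =
        ![fun i => Real.log (a i 0), fun i => Real.log (a i 1)] := by
      funext j
      fin_cases j <;> rfl
    rw [h3] at hcol
    exact not_dep hcol hp h1 h2
  · have h3 : (fun i : Fin 2 => fun j : Fin 2 => Real.log (a i j)) =
        ![fun j => Real.log (a 0 j), fun j => Real.log (a 1 j)] := by
      funext i
      fin_cases i <;> rfl
    rw [h3] at hrow
    exact not_dep hrow hp h1 h2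

end Pool.Agent.Results.MP_bbc1fa_nt.LucasSequences
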