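import Mathlib
import Pool.Agent.K4H73.NP.Params

/-!
# The four exponentials conjecture for integers near powers of `g`

`Pool.Agent.K4H73.NP.Near g n` (in `Pool.Agent.K4H73.NP.Basic`): there is a natural number `k` with
`|n - g ^ k| ^ 3 ≤ k`, that is, `n` differs from `g ^ k` by at most the cube root of `k`.

Let `K` be a natural number. Consider the `2 × 2` arrays of integers `a_ij ≥ 2` with largest entry `M`
for which there is an integer `g ≥ 2` with `log g ≤ (log log M) ^ K` such that every entry `a_ij` is near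
a power of `g` or satisfies `log a_ij ≤ (log log M) ^ K`. If `M` is larger than a bound which depends only
on `K`, the four exponentials conjecture holds for the array: if `(log a_ij)` has `ℚ`-linearly independent
rows and `ℚ`-linearly independent columns, its determinant is not `0`.

In particular, for every `g` and `B`, the conjecture holds for all but finitely many arrays of integers `g ^ k + c`
with `|c| ≤ B`, and for the rows `(log u, log v)`, `(log p, log q)` for any given integers `u, v ≥ 2` and all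
but finitely many pairs `p, q` of such integers. There is no condition on the relative sizes of the
exponents.
-/

set_option autoImplicit false

namespace Pool.Agent.Results.MP_bbc1fa_nt.NearPowers

open Pool.Agent.K4H73.NP

/-- the array version in terms of `Dep` -/
theorem arrays (K : ℕ) : ∃ T : ℕ, ∀ t : ℕ, T ≤ t → ∀ x ℓ : ℝ, 0 ≤ x → x ≤ t →
    ℓ ≤ Real.exp t → 2 ^ t / 2 < ℓ → ∀ g : ℕ, 2 ≤ g → Real.log g ≤ x ^ K →
    ∀ a b c d : ℕ, 2 ≤ a → 2 ≤ b → 2 ≤ c → 2 ≤ d →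
    Real.log a ≤ ℓ → Real.log b ≤ ℓ → Real.log c ≤ ℓ → Real.log d ≤ ℓ →
    (Real.log a = ℓ ∨ Real.log b = ℓ ∨ Real.log c = ℓ ∨ Real.log d = ℓ) →
    (Real.log a ≤ x ^ K ∨ Near g a) → (Real.log b ≤ x ^ K ∨ Near g b) →
    (Real.log c ≤ x ^ K ∨ Near g c) → (Real.log d ≤ x ^ K ∨ Near g d) →
    Real.log a * Real.log d = Real.log b * Real.log c →
    Dep (Real.log a) (Real.log b) (Real.log c) (Real.log d) := by
  obtain ⟨K₁, hK₁⟩ : ∃ K₁, K₁ = K + 3 := ⟨_, rfl⟩
  obtain ⟨K₂, hK₂⟩ : ∃ K₂, K₂ = 2 * K₁ + 3 + K := ⟨_, rfl⟩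
  obtain ⟨K₃, hK₃⟩ : ∃ K₃, K₃ = 2 * K₂ + 3 + K := ⟨_, rfl⟩
  obtain ⟨T₁, hT₁⟩ := pow_le_two_pow (2 * K₃ + 1)
  refine ⟨T₁ + 700000001, ?_⟩
  intro t ht x ℓ hx0 hxt hℓe hℓ2 g hg hgx a b c d ha2 hb2 hc2 hd2 ha hb hc hd hmax na nb nc nd heq
  have hP := hT₁ t (by omega)
  have ht1 : 1 ≤ t := by omega
  have hpm : ∀ {p q : ℕ}, p ≤ q → t ^ p ≤ t ^ q := fun h => Nat.pow_le_pow_right ht1 h
  have hY : ∀ κ : ℕ, κ ≤ K₂ → t ^ κ ≤ 2 ^ t := fun κ h2 => (hpm (by omega)).trans hP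
  have hxK : x ^ K ≤ ((t ^ K : ℕ) : ℝ) := by push_cast; exact pow_le_pow_left₀ hx0 hxt K
  have hgK : Real.log g ≤ ((t ^ K : ℕ) : ℝ) := hgx.trans hxK
  have hgκ : ∀ κ : ℕ, K ≤ κ → Real.log g ≤ ((t ^ κ : ℕ) : ℝ) := fun κ h =>
    hgK.trans (by exact_mod_cast hpm h)
  have S : Sz g (4 ^ (t + 1)) (12 * t + 32) := by
    refine ⟨hg, Nat.one_le_pow _ _ (by norm_num), ?_⟩
    rw [show (4 : ℕ) = 2 ^ 2 by norm_num, ← pow_mul, ← pow_mul, ← pow_add]
    exact Nat.pow_le_pow_right (by norm_num) (by omega)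
  have F₁ := mkLf (κ := K₁) hg (by omega : 10 ≤ t) (hgκ K₁ (by omega)) (hY K₁ (by omega))
  have F₂ := mkLf (κ := K₂) hg (by omega : 10 ≤ t) (hgκ K₂ (by omega)) (hY K₂ (by omega))
  have b2 := Eb_le (κ := K₁) (K := K) (by omega) (by omega : 700000001 ≤ t)
  have b3 := Eb_le (κ := K₂) (K := K) (by omega) (by omega : 700000001 ≤ t)
  rw [← hK₂] at b2
  rw [← hK₃] at b3
  have b1 : t ^ K * (16 * (12 * t + 32) ^ 2) + 1 ≤ t ^ K₁ := by
    have h1 : (12 * t + 32) ^ 2 ≤ (16 * t) ^ 2 := Nat.pow_le_pow_left (by omega) 2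
    have h2 : 1 ≤ t ^ K * t ^ 2 := Nat.mul_pos (Nat.one_le_pow _ _ (by omega))
      (Nat.one_le_pow _ _ (by omega))
    calc t ^ K * (16 * (12 * t + 32) ^ 2) + 1 ≤ t ^ K * (16 * (16 * t) ^ 2) + t ^ K * t ^ 2 := by gcongr
      _ = t ^ K * t ^ 2 * 4097 := by ring
      _ ≤ t ^ K * t ^ 2 * t := Nat.mul_le_mul_left _ (by omega)
      _ = t ^ K₁ := by rw [hK₁]; ring
  have P : Pm g (4 ^ (t + 1)) (12 * t + 32) (t ^ K₁) (48 * t + 120) (Eb t K₁) (t ^ K₂)
      (48 * t + 120) (Eb t K₂) ((t ^ K₁ : ℕ) : ℝ) ((t ^ K₂ : ℕ) : ℝ) ((t ^ K₃ : ℕ) : ℝ)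
      (2 ^ t / 2) := by
    refine ⟨S, F₁, F₂, le_rfl, le_rfl, ?_, ?_, ?_⟩
    · exact_mod_cast hpm (by omega)
    · exact_mod_cast hpm (by omega)
    · have h1 : 4 * (t ^ K₃ * t ^ K₃) ≤ 2 ^ t := by
        calc 4 * (t ^ K₃ * t ^ K₃) ≤ t * (t ^ K₃ * t ^ K₃) := Nat.mul_le_mul_right _ (by omega)
          _ = t ^ (2 * K₃ + 1) := by ring
          _ ≤ 2 ^ t := hP
      have h2 : (4 : ℝ) * (((t ^ K₃ : ℕ) : ℝ) * ((t ^ K₃ : ℕ) : ℝ)) ≤ 2 ^ t := by exact_mod_cast h1
      linarith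
  have hen : ∀ n : ℕ, 2 ≤ n → Real.log n ≤ ℓ → (Real.log n ≤ x ^ K ∨ Near g n) →
      En g (4 ^ (t + 1)) (12 * t + 32) (Eb t K₁) (Eb t K₂) ((t ^ K₁ : ℕ) : ℝ) ((t ^ K₂ : ℕ) : ℝ)
        ((t ^ K₃ : ℕ) : ℝ) n := by
    intro n hn hnℓ hor
    rcases hor with h | h
    · have h1 : x ^ K ≤ ((t ^ K₁ : ℕ) : ℝ) := hxK.trans (by exact_mod_cast hpm (by omega))
      refine ⟨hn, Or.inl (h.trans h1), Or.inl (h.trans (h1.trans P.h12)),
        Or.inl (h.trans (h1.trans (P.h12.trans P.h23)))⟩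
    · obtain ⟨k, c, hk⟩ := h.nr hn
      have hkm : k ≤ 4 ^ (t + 1) := hk.k_le hg (hnℓ.trans hℓe)
      have key : ∀ (E κ : ℕ), t ^ K * E + 1 ≤ t ^ κ →
          Real.log n ≤ ((t ^ κ : ℕ) : ℝ) ∨ Q g (4 ^ (t + 1)) E n := by
        intro E κ hE
        rcases le_or_gt (Real.log n) ((t ^ κ : ℕ) : ℝ) with h1 | h1
        · exact Or.inl h1
        · exact Or.inr ⟨k, c, hk, hk.k_ge hg hgK (by exact_mod_cast hE) h1, hkm⟩
      exact ⟨hn, key _ _ b1, key _ _ b2, key _ _ b3⟩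
  refine asm P (hen a ha2 ha na) (hen b hb2 hb nb) (hen c hc2 hc nc) (hen d hd2 hd nd) ?_ heq
  rcases hmax with h | h | h | h
  · left; rw [h]; exact hℓ2
  · right; left; rw [h]; exact hℓ2
  · right; right; left; rw [h]; exact hℓ2
  · right; right; right; rw [h]; exact hℓ2

/-- a dependence with positive integral coefficients contradicts the linear independence -/
lemma not_dep {u v : Fin 2 → ℝ} (h : LinearIndependent ℚ ![u, v]) {p q : ℕ} (hp : 0 < p)
    (h0 : p * u 0 = q * v 0) (h1 : p * u 1 = q * v 1) : False := by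
  rw [LinearIndependent.pair_iff] at h
  have h2 := h (p : ℚ) (-(q : ℚ)) (by
    funext i
    fin_cases i
    · simp only [Rat.smul_def, Pi.add_apply, Pi.smul_apply, Fin.zero_eta, Pi.zero_apply]
      push_cast
      linarith
    · simp only [Rat.smul_def, Pi.add_apply, Pi.smul_apply, Fin.mk_one, Pi.zero_apply]
      push_cast
      linarith)
  have h3 : (p : ℚ) = 0 := h2.1
  have : p = 0 := by exact_mod_cast h3
  omega

/-- **The four exponentials conjecture for integers near powers of `g`.** Let `K` be a natural number.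
There is `M₀` such that the following holds for all `2 × 2` arrays of integers `a_ij ≥ 2` with largest
entry `M ≥ M₀` and all integers `g ≥ 2` with `log g ≤ (log log M) ^ K`, if every entry satisfies
`log a_ij ≤ (log log M) ^ K` or `|a_ij - g ^ k| ^ 3 ≤ k` for some `k`: if `(log a_ij)` has `ℚ`-linearly
independent rows and `ℚ`-linearly independent columns, its determinant is not `0`. -/
theorem result (K : ℕ) : ∃ M₀ : ℕ, ∀ (M g : ℕ) (a : Matrix (Fin 2) (Fin 2) ℕ),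
    M₀ ≤ M → 2 ≤ g → Real.log g ≤ Real.log (Real.log M) ^ K →
    (∀ i j, 2 ≤ a i j ∧ a i j ≤ M) → (∃ i j, a i j = M) →
    (∀ i j, Real.log (a i j) ≤ Real.log (Real.log M) ^ K ∨ Near g (a i j)) →
    LinearIndependent ℚ (fun i : Fin 2 => fun j : Fin 2 => Real.log (a i j)) →
    LinearIndependent ℚ (fun j : Fin 2 => fun i : Fin 2 => Real.log (a i j)) →
    (Matrix.of fun i j : Fin 2 => Real.log (a i j)).det ≠ 0 := by
  obtain ⟨T, hT⟩ := arrays K
  refine ⟨⌈Real.exp (Real.exp (T + 1))⌉₊, ?_⟩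
  intro M g a hM hg hgM hI hmax hnear hrow hcol hdet
  have hM1 : Real.exp (Real.exp (T + 1)) ≤ M := (Nat.le_ceil _).trans (by exact_mod_cast hM)
  have hM0 : (0 : ℝ) < M := (Real.exp_pos _).trans_le hM1
  have hℓ1 : Real.exp (T + 1) ≤ Real.log M := by
    rw [Real.le_log_iff_exp_le hM0]; exact hM1
  have hℓ0 : 0 < Real.log M := (Real.exp_pos _).trans_le hℓ1
  have hx1 : (T + 1 : ℝ) ≤ Real.log (Real.log M) := by
    rw [Real.le_log_iff_exp_le hℓ0]; exact hℓ1
  obtain ⟨t, htd⟩ : ∃ t, t = ⌈Real.log (Real.log M)⌉₊ := ⟨_, rfl⟩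
  have hT0 : (0 : ℝ) ≤ T := Nat.cast_nonneg _
  have hx0 : 0 ≤ Real.log (Real.log M) := by linarith
  have hxt : Real.log (Real.log M) ≤ t := by rw [htd]; exact Nat.le_ceil _
  have htx : (t : ℝ) < Real.log (Real.log M) + 1 := by rw [htd]; exact Nat.ceil_lt_add_one hx0
  have hTt : T ≤ t := by
    have : (T : ℝ) ≤ t := by linarith
    exact_mod_cast this
  have ht1 : 1 ≤ t := by
    have : (1 : ℝ) ≤ t := by linarith
    exact_mod_cast this
  have hℓe : Real.log M ≤ Real.exp t := by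
    rw [← Real.log_le_iff_le_exp hℓ0]; exact hxt
  have hℓ2 : (2 : ℝ) ^ t / 2 < Real.log M := by
    obtain ⟨s, hs⟩ : ∃ s, t = s + 1 := ⟨t - 1, by omega⟩
    have h1 : (s : ℝ) < Real.log (Real.log M) := by
      rw [hs] at htx; push_cast at htx; linarith
    have h2 : Real.exp s < Real.log M := (Real.lt_log_iff_exp_lt hℓ0).1 h1
    have h3 : (2 : ℝ) ^ s ≤ Real.exp s := by
      have h5 : Real.exp s = Real.exp 1 ^ s := by rw [← Real.exp_nat_mul, mul_one]
      rw [h5]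
      refine pow_le_pow_left₀ (by norm_num) ?_ s
      have := Real.add_one_le_exp (1 : ℝ)
      linarith
    rw [hs, pow_succ]
    linarith
  have hlog : ∀ i j, Real.log (a i j) ≤ Real.log M := fun i j => by
    refine Real.log_le_log ?_ ?_
    · have := (hI i j).1
      exact_mod_cast (by omega : 0 < a i j)
    · exact_mod_cast (hI i j).2
  have hmx : Real.log (a 0 0) = Real.log M ∨ Real.log (a 0 1) = Real.log M ∨
      Real.log (a 1 0) = Real.log M ∨ Real.log (a 1 1) = Real.log M := by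
    obtain ⟨i, j, hij⟩ := hmax
    fin_cases i <;> fin_cases j
    · left; exact congrArg (fun n : ℕ => Real.log n) hij
    · right; left; exact congrArg (fun n : ℕ => Real.log n) hij
    · right; right; left; exact congrArg (fun n : ℕ => Real.log n) hij
    · right; right; right; exact congrArg (fun n : ℕ => Real.log n) hij
  rw [Matrix.det_fin_two] at hdet
  simp only [Matrix.of_apply] at hdet
  have hD := hT t hTt (Real.log (Real.log M)) (Real.log M) hx0 hxt hℓe hℓ2 g hg hgM (a 0 0) (a 0 1) (a 1 0)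
    (a 1 1) (hI 0 0).1 (hI 0 1).1 (hI 1 0).1 (hI 1 1).1 (hlog 0 0) (hlog 0 1) (hlog 1 0) (hlog 1 1)
    hmx (hnear 0 0) (hnear 0 1) (hnear 1 0) (hnear 1 1) (by linarith)
  rcases hD with ⟨p, q, hp, -, h1, h2⟩ | ⟨p, q, hp, -, h1, h2⟩
  · -- columns
    have h3 : (fun j : Fin 2 => fun i : Fin 2 => Real.log (a i j)) =
        ![fun i => Real.log (a i 0), fun i => Real.log (a i 1)] := by
      funext j
      fin_cases j <;> rfl
    rw [h3] at hcol
    exact not_dep hcol hp h1 h2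
  · have h3 : (fun i : Fin 2 => fun j : Fin 2 => Real.log (a i j)) =
        ![fun j => Real.log (a 0 j), fun j => Real.log (a 1 j)] := by
      funext i
      fin_cases i <;> rfl
    rw [h3] at hrow
    exact not_dep hrow hp h1 h2

end Pool.Agent.Results.MP_bbc1fa_nt.NearPowers
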