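import Mathlib
import Pool.Agent.K4H73.QF.Params

/-!
# The four exponentials conjecture for the numbers `n` and `n + c`, `n = p ^ x q ^ y`

Let `p, q ≥ 2` be multiplicatively independent integers, for instance `2` and `3`, and let `S` be the set of
the integers `p ^ x q ^ y`, `x, y ≥ 0`. There is `κ > 0` such that for all large `N` and all integers `c`
with `c ^ 4 ≤ N` the four exponentials conjecture holds for all `2 × 2` arrays of integers
`a_ij ≥ 2`, `a_ij ≤ exp (exp (κ √(log N)))`, such that every entry is in `S` or is at least `N` and in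
`S + c`: if `(log a_ij)` has `ℚ`-linearly independent rows and `ℚ`-linearly independent columns, its
determinant is not `0`.

So for a given `c` the conjecture holds for all but finitely many arrays of elements of `S + c` (for `c = 1`
and `S` the set of the integers `2 ^ x 3 ^ y`, for instance, the Pierpont primes) with largest entry at most
`exp (exp (κ √(log N)))`, `N` the smallest entry; and for given `u, v` in `S`, for instance `u = 2`, `v = 3`,
it holds for the rows `(log u, log v)`, `(log a, log b)` for all but finitely many pairs `a, b` of elements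
of `S ∪ (S + c)`: if `t` is real and `2 ^ t` and `3 ^ t` are both of the form `2 ^ x 3 ^ y` or
`2 ^ x 3 ^ y + c`, then `t` is an integer or belongs to a finite set.

The proof has a lower bound for the values of integral binary quadratic forms at `(log p, log q)`
(`Pool.Agent.K4H73.QF.Par.form`), from a lower bound for linear forms in two logarithms with coefficients
in a real quadratic field (`Pool.Agent.K4H73.QF.lfl_quad`), both proved here by interpolation determinants,
and an analysis of the arrays for which the main terms `log (p ^ x q ^ y)` form a singular array.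
-/

set_option autoImplicit false

namespace Pool.Agent.Results.MP_bbc1fa_nt.ShiftedRankTwo

open Pool.Agent.K4H73.NP Pool.Agent.K4H73.QF

/-- a dependence with positive integral coefficients contradicts the linear independence -/
lemma not_dep {u v : Fin 2 → ℝ} (h : LinearIndependent ℚ ![u, v]) {p q : ℕ} (hp : 0 < p)
    (h0 : p * u 0 = q * v 0) (h1 : p * u 1 = q * v 1) : False := by
  rw [LinearIndependent.pair_iff] at h
  have h2 := h (p : ℚ) (-(q : ℚ)) (by
    funext i
    fin_cases i
    · simp only [Rat.smul_def, Pi.add_apply, Pi.smul_apply, Fin.zero_eta, Pi.zero_apply]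
      push_cast
      linarith
    · simp only [Rat.smul_def, Pi.add_apply, Pi.smul_apply, Fin.mk_one, Pi.zero_apply]
      push_cast
      linarith)
  have h3 : (p : ℚ) = 0 := h2.1
  have : p = 0 := by exact_mod_cast h3
  omega

/-- **The four exponentials conjecture for the numbers `n` and `n + c`, `n = p ^ x q ^ y`.** Let `p, q ≥ 2` be
multiplicatively independent integers. There are `κ > 0` and `N₀` such that the following holds for all
`N ≥ N₀`, all integers `c` with `c ^ 4 ≤ N` and all `2 × 2` arrays of integers `a_ij ≥ 2` with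
`log log a_ij ≤ κ √(log N)` in which every entry is of the form `p ^ x q ^ y` or is at least `N` and of
the form `p ^ x q ^ y + c`: if `(log a_ij)` has `ℚ`-linearly independent rows and `ℚ`-linearly
independent columns, its determinant is not `0`. -/
theorem result (p q : ℕ) (hp : 2 ≤ p) (hq : 2 ≤ q)
    (hpq : ∀ m n : ℕ, 0 < m → 0 < n → p ^ m ≠ q ^ n) :
    ∃ κ : ℝ, 0 < κ ∧ ∃ N₀ : ℕ, ∀ (N : ℕ) (c : ℤ) (a : Matrix (Fin 2) (Fin 2) ℕ),
    N₀ ≤ N → c ^ 4 ≤ (N : ℤ) →
    (∀ i j, 2 ≤ a i j ∧ Real.log (Real.log (a i j)) ≤ κ * √(Real.log N)) →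
    (∀ i j, (∃ x y : ℕ, a i j = p ^ x * q ^ y) ∨
      (N ≤ a i j ∧ ∃ x y : ℕ, (a i j : ℤ) = p ^ x * q ^ y + c)) →
    LinearIndependent ℚ (fun i : Fin 2 => fun j : Fin 2 => Real.log (a i j)) →
    LinearIndependent ℚ (fun j : Fin 2 => fun i : Fin 2 => Real.log (a i j)) →
    (Matrix.of fun i j : Fin 2 => Real.log (a i j)).det ≠ 0 := by
  have hind : ∀ m n : ℕ, p ^ m = q ^ n → m = 0 := by
    intro m n h
    by_contra hm
    rcases Nat.eq_zero_or_pos n with hn | hn
    · rw [hn, pow_zero] at h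
      have h1 : 2 ^ m ≤ p ^ m := Nat.pow_le_pow_left hp m
      have h2 : 2 ^ 1 ≤ 2 ^ m := Nat.pow_le_pow_right (by norm_num) (by omega)
      omega
    · exact hpq m n (by omega) hn h
  obtain ⟨κ, hκ, r₀, hr₀, hpar⟩ := exists_par hp hq hind
  refine ⟨κ, hκ, ⌈Real.exp (r₀ ^ 2)⌉₊, ?_⟩
  intro N c a hN hc4 hI hform hrow hcol hdet
  have hN1 : Real.exp (r₀ ^ 2) ≤ N := (Nat.le_ceil _).trans (by exact_mod_cast hN)
  have hN0 : (0 : ℝ) < N := (Real.exp_pos _).trans_le hN1
  have hlogN : r₀ ^ 2 ≤ Real.log N := by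
    rw [Real.le_log_iff_exp_le hN0]; exact hN1
  obtain ⟨r, hrd⟩ : ∃ r, r = √(Real.log N) := ⟨_, rfl⟩
  have hr : r₀ ≤ r := by
    rw [hrd]
    exact Real.le_sqrt_of_sq_le hlogN
  have hr2 : 2 ≤ r := hr₀.trans hr
  have hrN : Real.exp (r ^ 2) = N := by
    rw [hrd, Real.sq_sqrt (le_trans (sq_nonneg _) hlogN), Real.exp_log hN0]
  obtain ⟨Y, L, H, S, hH, hbig⟩ := hpar r hr
  have hcr : |(c : ℝ)| ≤ Real.exp (r ^ 2 / 4) := by
    have h1 : |(c : ℝ)| ^ 4 ≤ Real.exp (r ^ 2 / 4) ^ 4 := by
      rw [← Real.exp_nat_mul]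
      have h2 : ((4 : ℕ) : ℝ) * (r ^ 2 / 4) = r ^ 2 := by push_cast; ring
      rw [h2, hrN]
      have h3 : |(c : ℝ)| ^ 4 = (c : ℝ) ^ 4 := by
        rw [← abs_pow, abs_of_nonneg (by positivity)]
      rw [h3]
      exact_mod_cast hc4
    exact le_of_pow_le_pow_left₀ (by norm_num) (Real.exp_pos _).le h1
  obtain ⟨c', hc'0, hc'⟩ : ∃ c' : ℝ, c' ≠ 0 ∧ (c ≠ 0 → c' = c) := by
    by_cases h : c = 0
    · exact ⟨1, one_ne_zero, fun h' => absurd h h'⟩
    · exact ⟨c, by exact_mod_cast h, fun _ => rfl⟩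
  have hE : ∀ i j, ∃ x y : ℕ, Ent p q c' (2 * Real.exp (-(3 / 4 * r ^ 2))) (Real.exp (κ * r)) x y
      (Real.log (a i j)) := by
    intro i j
    refine mkEnt hp hq hr2 hc' (hI i j).1 hcr (by rw [hrd]; exact (hI i j).2) ?_
    rcases hform i j with h | ⟨h1, h2⟩
    · exact Or.inl h
    · refine Or.inr ⟨?_, h2⟩
      rw [hrN]
      exact_mod_cast h1
  obtain ⟨x₁, y₁, E1⟩ := hE 0 0
  obtain ⟨x₂, y₂, E2⟩ := hE 0 1
  obtain ⟨x₃, y₃, E3⟩ := hE 1 0
  obtain ⟨x₄, y₄, E4⟩ := hE 1 1
  have hζ1 : 2 * Real.exp (-(3 / 4 * r ^ 2)) ≤ 1 / 8 := by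
    have h1 : Real.exp (-(3 / 4 * r ^ 2)) ≤ Real.exp (-3) := Real.exp_le_exp.2 (by nlinarith)
    have h7 : (2.7182818283 : ℝ) ^ 3 ≤ Real.exp 1 ^ 3 :=
      pow_le_pow_left₀ (by norm_num) Real.exp_one_gt_d9.le _
    rw [← Real.exp_nat_mul] at h7
    norm_num at h7
    have h8 : Real.exp (-3) * Real.exp 3 = 1 := by rw [← Real.exp_add]; norm_num
    have h9 : 0 < Real.exp (-3) := Real.exp_pos _
    nlinarith
  have hℓ : 1 ≤ Real.exp (κ * r) := Real.one_le_exp (by positivity)
  rw [Matrix.det_fin_two] at hdet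
  simp only [Matrix.of_apply] at hdet
  have hD := main S hc'0 (by positivity) hζ1 hℓ hH hbig E1 E2 E3 E4 (by linarith)
  rcases hD with ⟨p', q', hp', -, h1, h2⟩ | ⟨p', q', hp', -, h1, h2⟩
  · -- columns
    have h3 : (fun j : Fin 2 => fun i : Fin 2 => Real.log (a i j)) =
        ![fun i => Real.log (a i 0), fun i => Real.log (a i 1)] := by
      funext j
      fin_cases j <;> rfl
    rw [h3] at hcol
    exact not_dep hcol hp' h1 h2
  · have h3 : (fun i : Fin 2 => fun j : Fin 2 => Real.log (a i j)) =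
        ![fun j => Real.log (a 0 j), fun j => Real.log (a 1 j)] := by
      funext i
      fin_cases i <;> rfl
    rw [h3] at hrow
    exact not_dep hrow hp' h1 h2

end Pool.Agent.Results.MP_bbc1fa_nt.ShiftedRankTwo
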