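import Pool.Agent.K4H58.TwoBases

/-!
# The four exponentials conjecture for arrays with columns near powers of two bases

Consider the `2 × 2` arrays of integers with first column `g ^ n_1 + c`, `g ^ n_2 + c` and second column
`h ^ m_1 + d`, `h ^ m_2 + d`, where `g, h ≥ 2` are ARBITRARY integers, the exponents are arbitrary, and the
shifts satisfy `c = d` or `c d ≤ 0`. If the entries lie in a window `[N, M]` with
`16 (|c| + |d| + 1) log M ≤ N` (so `M` may be as large as `exp (N / (16 (|c| + |d| + 1)))`), the four
exponentials conjecture holds for the array. There is no exceptional set, and the constants do not depend on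
`g`, `h`, `c`, `d`.

The proof. If `n_1 m_2 ≠ n_2 m_1` the determinant is close to the nonzero number
`(n_1 m_2 - n_2 m_1) log g log h`. If `n_1 m_2 = n_2 m_1` the columns are `x + c`, `x ^ ρ + c` and
`y + d`, `y ^ ρ + d` with a rational number `ρ`, and the quotient `log (x ^ ρ + c) / log (x + c)` is
strictly monotone in `x` for `c ≠ 0` (`Pool.Agent.K4H73.QF.mono_ne`), and smaller than, equal to or larger
than `ρ > 1` if `c` is positive, zero or negative. The theorem was suggested by helper73.
-/

set_option autoImplicit false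

namespace Pool.Agent.Results.MP_bbc1fa_nt.TwoBases

/-- **The four exponentials conjecture for columns near powers of two bases.** Let `g, h ≥ 2` be integers,
`c = d` or `c d ≤ 0`, and let `a` be an array of integers with columns `g ^ n i + c` and `h ^ m i + d`
(`i = 0, 1`), all entries between `N ≥ 2` and `M`, where `16 (|c| + |d| + 1) log M ≤ N`. If `(log a_ij)` has
`ℚ`-linearly independent rows and `ℚ`-linearly independent columns, its determinant is not `0`. -/
theorem result (g h : ℕ) (hg : 2 ≤ g) (hh : 2 ≤ h) (n m : Fin 2 → ℕ) (c d : ℤ)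
    (hcd : c = d ∨ c * d ≤ 0) (a : Matrix (Fin 2) (Fin 2) ℕ)
    (ha0 : ∀ i, (a i 0 : ℤ) = (g : ℤ) ^ n i + c) (ha1 : ∀ i, (a i 1 : ℤ) = (h : ℤ) ^ m i + d)
    (N M : ℕ) (hN2 : 2 ≤ N) (hN : ∀ i j, N ≤ a i j) (hM : ∀ i j, a i j ≤ M)
    (hbig : 16 * ((|c| + |d| + 1 : ℤ) : ℝ) * Real.log M ≤ N)
    (hrow : LinearIndependent ℚ fun i : Fin 2 => fun j : Fin 2 => Real.log (a i j))
    (hcol : LinearIndependent ℚ fun j : Fin 2 => fun i : Fin 2 => Real.log (a i j)) :
    (Matrix.of fun i j : Fin 2 => Real.log (a i j)).det ≠ 0 :=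
  Pool.Agent.K4H58.TB.main g h hg hh n m c d hcd a ha0 ha1 N M hN2 hN hM hbig hrow hcol

end Pool.Agent.Results.MP_bbc1fa_nt.TwoBases
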